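import Mathlib

namespace Pool.Agent.H.MP_12dd5c_an

open Filter Topology Finset
open scoped ENNReal Classical

noncomputable abbrev L1 (G : Type) := lp (fun _ : G => ℂ) 1
noncomputable abbrev Li (G : Type) := lp (fun _ : G => ℂ) ∞

variable {G : Type}

noncomputable def δ (s : G) : L1 G := lp.single 1 s 1

lemma nδ (s : G) : ‖δ s‖ = 1 := by rw [δ, lp.norm_single one_pos, norm_one]

lemma hs (a : L1 G) : HasSum (fun s => a s • δ s) a := by
  simpa only [δ, ← lp.single_smul, smul_eq_mul, mul_one] using lp.hasSum_single ENNReal.one_ne_top a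

lemma lift {R Y : Type} [NontriviallyNormedField R] [NormedSpace R ℂ] [NormedAddCommGroup Y]
    [NormedSpace R Y] [CompleteSpace Y] (ρ : ℂ →L[R] R) (h0 : ‖ρ‖ ≤ 1) (h1 : ρ 1 = 1) (v : G → Y)
    {C : ℝ} (C0 : 0 ≤ C) (h : ∀ s, ‖v s‖ ≤ C) :
    ∃ L : L1 G →L[R] Y, ‖L‖ ≤ C ∧ ∀ s, L (δ s) = v s := by
  have b : ∀ s, ‖ρ.smulRight (v s)‖ ≤ C := fun s => by
    rw [ContinuousLinearMap.norm_smulRight_apply]
    exact (mul_le_mul h0 (h s) (norm_nonneg _) zero_le_one).trans_eq (one_mul _)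
  refine ⟨lp.tsumCLM R G Y ∘L lp.mapCLM 1 (fun s => ρ.smulRight (v s)) C0 b,
    (ContinuousLinearMap.opNorm_comp_le _ _).trans ((mul_le_mul lp.norm_tsumCLM_le
      (lp.norm_mapCLM_le _ _ C0 b) (norm_nonneg _) zero_le_one).trans_eq (one_mul _)), fun s => ?_⟩
  simp only [ContinuousLinearMap.comp_apply, lp.tsumCLM_apply, lp.mapCLM_apply_coe]
  rw [tsum_eq_single s fun t ht => by simp [δ, ht]]
  simp [δ, h1]

lemma liftC {Y : Type} [NormedAddCommGroup Y] [NormedSpace ℂ Y] [CompleteSpace Y] (v : G → Y)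
    {C : ℝ} (C0 : 0 ≤ C) (h : ∀ s, ‖v s‖ ≤ C) :
    ∃ L : L1 G →L[ℂ] Y, ‖L‖ ≤ C ∧ ∀ s, L (δ s) = v s :=
  lift (.id ℂ ℂ) ContinuousLinearMap.norm_id_le rfl v C0 h

lemma ext {Y : Type} [NormedAddCommGroup Y] [NormedSpace ℂ Y] {L L' : L1 G →L[ℂ] Y}
    (h : ∀ s, L (δ s) = L' (δ s)) (a : L1 G) : L a = L' a :=
  (L.hasSum (hs a)).unique (by simpa only [map_smul, h] using L'.hasSum (hs a))

lemma dual (G : Type) : ∃ Φ : Li G ≃ₗᵢ[ℂ] StrongDual ℂ (L1 G), ∀ x s, Φ x (δ s) = x s := by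
  have b : ∀ (f : StrongDual ℂ (L1 G)) s, ‖f (δ s)‖ ≤ ‖f‖ := fun f s => by
    simpa [nδ] using f.le_opNorm (δ s)
  have l := fun x : Li G => liftC (fun s => x s) (norm_nonneg x) (lp.norm_apply_le_norm (by simp) x)
  let Ψ : StrongDual ℂ (L1 G) →ₗᵢ[ℂ] Li G :=
    ⟨⟨⟨fun f => ⟨fun s => f (δ s), memℓp_infty ⟨‖f‖, Set.forall_mem_range.2 (b f)⟩⟩,
      fun _ _ => rfl⟩, fun _ _ => rfl⟩, fun f => le_antisymm
        (lp.norm_le_of_forall_le (norm_nonneg f) (b f)) (by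
          obtain ⟨L, h1, h2⟩ := l ⟨fun s => f (δ s), memℓp_infty ⟨‖f‖, Set.forall_mem_range.2 (b f)⟩⟩
          exact (ContinuousLinearMap.ext (ext h2) : L = f) ▸ h1)⟩
  have s : Function.Surjective Ψ := fun x => (l x).imp fun L h => lp.ext (funext h.2)
  exact ⟨(LinearIsometryEquiv.ofSurjective Ψ s).symm, fun x t =>
    congrFun (congrArg Subtype.val ((LinearIsometryEquiv.ofSurjective Ψ s).apply_symm_apply x)) t⟩

lemma conv (G : Type) [Monoid G] : ∃ mul : L1 G →L[ℂ] L1 G →L[ℂ] L1 G, ‖mul‖ ≤ 1 ∧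
    (∀ s t, mul (δ s) (δ t) = δ (s * t)) ∧ ∀ a b c, mul (mul a b) c = mul a (mul b c) := by
  choose τ h1 h2 using fun s : G => liftC (fun t => δ (s * t)) zero_le_one fun t => (nδ _).le
  obtain ⟨mul, h3, h4⟩ := liftC τ zero_le_one h1
  have e : ∀ s t, mul (δ s) (δ t) = δ (s * t) := fun s t => by rw [h4, h2]
  refine ⟨mul, h3, e, fun a b c => ext (L := mul.flip c ∘L mul.flip b) (L' := mul.flip (mul b c))
    (fun s => ext (L := mul.flip c ∘L mul (δ s)) (L' := mul (δ s) ∘L mul.flip c) (fun t =>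
      ext (L := mul (mul (δ s) (δ t))) (L' := mul (δ s) ∘L mul (δ t)) (fun u => ?_) c) b) a⟩
  simp [e, mul_assoc]

section
variable {A : Type} [NormedAddCommGroup A] [NormedSpace ℂ A]

lemma clus {b : ℕ → A} (h : ∀ n, ‖b n‖ ≤ 1) : ∃ m : StrongDual ℂ (StrongDual ℂ A), ‖m‖ ≤ 1 ∧
    ∀ f : StrongDual ℂ A, Tendsto (fun n => f (b n)) (hyperfilter ℕ) (𝓝 (m f)) := by
  obtain ⟨m, h1, h2⟩ := (WeakDual.isCompact_closedBall (0 : StrongDual ℂ (StrongDual ℂ A))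
    1).ultrafilter_le_nhds' ((hyperfilter ℕ).map fun n =>
      StrongDual.toWeakDual (NormedSpace.inclusionInDoubleDual ℂ A (b n))) 
      (Ultrafilter.mem_map.2 (univ_mem' fun n => mem_closedBall_zero_iff.2
        ((NormedSpace.double_dual_bound ℂ A (b n)).trans (h n))))
  exact ⟨m.toStrongDual, mem_closedBall_zero_iff.1 h1, fun f =>
    ((WeakDual.eval_continuous f).tendsto m).comp h2⟩

lemma dl (L : A →L[ℂ] StrongDual ℂ A)
    (hL : IsCompactOperator fun a => toWeakSpace ℂ (StrongDual ℂ A) (L a)) {a b : ℕ → A}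
    (ha : ∀ n, ‖a n‖ ≤ 1) (hb : ∀ n, ‖b n‖ ≤ 1) {x : ℕ → ℂ} {X Y : ℂ}
    (h1 : ∀ i, Tendsto (fun j => L (a i) (b j)) (hyperfilter ℕ) (𝓝 (x i)))
    (h2 : Tendsto x (hyperfilter ℕ) (𝓝 X))
    (h3 : ∀ j, Tendsto (fun i => L (a i) (b j)) (hyperfilter ℕ) (𝓝 Y)) : X = Y := by
  obtain ⟨K, k1, k2⟩ := hL
  obtain ⟨r, r0, hr⟩ := Metric.nhds_basis_closedBall.mem_iff.1 k2
  obtain ⟨g, -, hg⟩ := k1.ultrafilter_le_nhds' ((hyperfilter ℕ).map fun n =>
    toWeakSpace ℂ (StrongDual ℂ A) (L ((r : ℂ) • a n))) (Ultrafilter.mem_map.2 (univ_mem' fun n =>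
      hr (a := (r : ℂ) • a n) (by
      rw [mem_closedBall_zero_iff, norm_smul, Complex.norm_of_nonneg r0.le]
      exact mul_le_of_le_one_right r0.le (ha n))))
  have w : ∀ φ : StrongDual ℂ (StrongDual ℂ A), Tendsto (fun n => r * φ (L (a n))) (hyperfilter ℕ)
      (𝓝 (φ ((toWeakSpace ℂ _).symm g))) := fun φ =>
    Tendsto.congr (fun n => show φ (L ((r : ℂ) • a n)) = _ by simp)
      (((WeakBilin.eval_continuous (topDualPairing ℂ (StrongDual ℂ A)).flip φ).tendsto g).comp hg)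
  obtain ⟨m, -, hm⟩ := clus hb
  have e1 := w m
  simp only [fun i => tendsto_nhds_unique (hm _) (h1 i)] at e1
  have e2 := hm ((toWeakSpace ℂ _).symm g)
  have : ∀ j, (toWeakSpace ℂ _).symm g (b j) = r * Y := fun j => tendsto_nhds_unique
    (w (NormedSpace.inclusionInDoubleDual ℂ A (b j))) ((h3 j).const_mul _)
  simp only [this] at e2
  exact mul_left_cancel₀ (Complex.ofReal_ne_zero.2 r0.ne') ((tendsto_nhds_unique (h2.const_mul _)
    e1).trans (tendsto_nhds_unique e2 tendsto_const_nhds))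

end

noncomputable def av (n : ℕ) (x : ℕ → ℂ) : ℂ := (((n + 1) ^ 2 : ℕ) : ℂ)⁻¹ * ∑ r ∈ range ((n + 1) ^ 2), x r

lemma shift {x : ℕ → ℂ} {B : ℝ} (h : ∀ r, ‖x r‖ ≤ B) (c : ℕ) {X : ℂ}
    (hX : Tendsto (fun n => av n x) (hyperfilter ℕ) (𝓝 X)) :
    Tendsto (fun n => av n fun r => x (n + c + r)) (hyperfilter ℕ) (𝓝 X) := by
  have B0 := (norm_nonneg _).trans (h 0)
  refine hX.congr_dist (squeeze_zero (fun _ => dist_nonneg) (fun n => ?_)
    (((tendsto_const_div_atTop_nhds_zero_nat (2 * (c + 1) * B)).comp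
      (tendsto_add_atTop_nat 1)).mono_left Nat.hyperfilter_le_atTop))
  have e := (sum_range_add x (n + c) ((n + 1) ^ 2)).symm.trans
    (add_comm (n + c) _ ▸ sum_range_add x ((n + 1) ^ 2) (n + c))
  have b : ∀ k, ‖∑ r ∈ range (n + c), x (k + r)‖ ≤ (n + c) * B := fun k =>
    (norm_sum_le _ _).trans (by simpa using sum_le_card_nsmul (range (n + c)) _ B fun r _ => h _)
  have b0 := b 0
  simp only [zero_add] at b0
  rw [dist_eq_norm, av, av, ← mul_sub, show ∑ r ∈ range ((n + 1) ^ 2), x r - ∑ r ∈ range ((n + 1) ^ 2),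
    x (n + c + r) = ∑ r ∈ range (n + c), x r - ∑ r ∈ range (n + c), x ((n + 1) ^ 2 + r) by
      linear_combination -e, norm_mul, norm_inv, Complex.norm_natCast, inv_mul_le_iff₀ (by positivity)]
  refine (norm_sub_le _ _).trans ((add_le_add b0 (b _)).trans ?_)
  simp only [Function.comp]
  push_cast
  rw [sq, mul_assoc, mul_div_cancel₀ _ (by positivity)]
  have : (0 : ℝ) ≤ n * c * B := by positivity
  nlinarith

lemma tlim [Monoid G] {mul : L1 G →L[ℂ] L1 G →L[ℂ] L1 G} (h1 : ‖mul‖ ≤ 1)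
    (h2 : ∀ s t, mul (δ s) (δ t) = δ (s * t)) {e : StrongDual ℂ (L1 G)} (e1 : ‖e‖ = 1)
    (e2 : ∀ s, e (δ s) = 1) {U : G} (hU : ∀ s, s * U = U * s) (S : ℕ → G)
    (H : ∀ p, ∃ (k : ℕ) (T : ℕ → G), ∀ i j, S i * T j = if i ≤ j then U ^ (i + k) else p * U ^ (i + 1)) :
    ∃ m : StrongDual ℂ (StrongDual ℂ (L1 G)), ‖m‖ = 1 ∧ m e = 1 ∧ ∀ f : StrongDual ℂ (L1 G),
      (IsCompactOperator fun a => toWeakSpace ℂ _ (f ∘L mul a)) → ∀ a, e a = 1 → m (f ∘L mul a) = m f := by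
  obtain ⟨ν, n1, n2⟩ : ∃ ν : ℕ → L1 G, (∀ n, ‖ν n‖ ≤ 1) ∧
      ∀ n (f : StrongDual ℂ (L1 G)), f (ν n) = av n fun r => f (δ (U ^ r)) := by
    refine ⟨fun n => (((n + 1) ^ 2 : ℕ) : ℂ)⁻¹ • ∑ r ∈ range ((n + 1) ^ 2), δ (U ^ r), fun n => ?_,
      fun n f => by simp [av]⟩
    rw [norm_smul, norm_inv, Complex.norm_natCast, inv_mul_le_iff₀ (by positivity)]
    exact (norm_sum_le _ _).trans (by simp [nδ])
  obtain ⟨m, m1, m2⟩ := clus n1
  have m3 : m e = 1 := tendsto_nhds_unique (m2 e) (by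
    refine tendsto_const_nhds.congr fun n => ?_
    rw [n2, av]; simp only [e2, sum_const, card_range, nsmul_eq_mul, mul_one]
    exact (inv_mul_cancel₀ (Nat.cast_ne_zero.2 (by positivity))).symm)
  refine ⟨m, le_antisymm m1 (by simpa [m3, e1] using m.le_opNorm e), m3, fun f hf a ha => ?_⟩
  obtain ⟨L, hL⟩ : ∃ L : L1 G →L[ℂ] StrongDual ℂ (L1 G), ∀ a, L a = f ∘L mul a :=
    ⟨ContinuousLinearMap.compL ℂ _ _ _ f ∘L mul, fun _ => rfl⟩
  simp only [← hL] at hf ⊢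
  have b : ∀ s, ‖f (δ s)‖ ≤ ‖f‖ := fun s => by simpa [nδ] using f.le_opNorm (δ s)
  refine (ext (L := m ∘L L) (L' := e.smulRight (m f)) (fun p => ?_) a).trans (by simp [ha])
  obtain ⟨k, T, hT⟩ := H p
  have F : ∀ i j, L (mul (δ (S i)) (ν i)) (δ (T j)) = av i fun r => f (δ (S i * T j * U ^ r)) :=
    fun i j => by
      refine (n2 i ((L.flip (δ (T j))) ∘L mul (δ (S i)))).trans ?_
      simp [hL, h2, mul_assoc, (Commute.pow_right (hU (T j)) _).eq]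
  have t1 := m2 f
  have t2 := m2 (L (δ p))
  simp only [n2, hL, ContinuousLinearMap.comp_apply, h2] at t1 t2
  simp only [ContinuousLinearMap.comp_apply, ContinuousLinearMap.smulRight_apply, e2, one_smul, hL]
  refine (dl L hf (a := fun i => mul (δ (S i)) (ν i)) (b := fun j => δ (T j)) (fun i => ?_)
    (fun j => (nδ _).le) (fun i => ?_) (shift (fun _ => b _) k t1) fun j => ?_).symm
  · simpa using mul.le_of_opNorm₂_le_of_le h1 (nδ _).le (n1 i)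
  · refine tendsto_const_nhds.congr' (Nat.hyperfilter_le_atTop
      ((eventually_ge_atTop i).mono fun j h => ?_))
    simp only [F, hT, if_pos h, pow_add]
  · refine (shift (fun _ => b _) 1 t2).congr' (Nat.hyperfilter_le_atTop
      ((eventually_gt_atTop j).mono fun i h => ?_))
    simp only [F, hT, if_neg h.not_ge, pow_add, mul_assoc]

section
variable (𝕜 : Type) [RCLike 𝕜]

noncomputable abbrev E := lp (fun _ : List ℕ => 𝕜) ∞

noncomputable def w : List ℕ → ℝ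
  | [] => 1
  | i :: l => (1 / 2) ^ (i + 1) * w l

def X : Set (E 𝕜) := {x | ∀ l, ‖x l‖ ≤ w l * ‖x []‖}

def Gd : Submonoid (E 𝕜 →L[𝕜] E 𝕜) where
  carrier := {T | ‖T‖ ≤ 1 ∧ ∃ k : ℕ, ∀ x, T x [] = (1 / 2) ^ k * x [] ∧ (x ∈ X 𝕜 → T x ∈ X 𝕜)}
  one_mem' := ⟨ContinuousLinearMap.norm_id_le, 0, fun x => by simp⟩
  mul_mem' := fun {S T} ⟨h1, k, h2⟩ ⟨h3, l, h4⟩ =>
    ⟨(norm_mul_le _ _).trans (mul_le_one₀ h1 (norm_nonneg _) h3), k + l, fun x =>
      ⟨((h2 _).1.trans (congrArg _ (h4 x).1)).trans (by ring), fun h => (h2 _).2 ((h4 x).2 h)⟩⟩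

variable {𝕜}

lemma w0 (l : List ℕ) : 0 < w l ∧ w l ≤ 1 := by
  induction l with
  | nil => simp [w]
  | cons i l ih => exact ⟨mul_pos (by positivity) ih.1,
      mul_le_one₀ (pow_le_one₀ (by norm_num) (by norm_num)) ih.1.le ih.2⟩

lemma wfin (N : ℕ) : {l | (1 / 2) ^ N ≤ w l}.Finite := by
  induction N with
  | zero =>
    refine (Set.finite_singleton []).subset fun l hl => ?_
    rcases l with _ | ⟨i, l⟩
    · rfl
    · have := mul_lt_one_of_nonneg_of_lt_one_left (a := (1 / 2 : ℝ) ^ (i + 1)) (by positivity)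
        (pow_lt_one₀ (by norm_num) (by norm_num) (by omega)) (w0 l).2
      exact absurd hl (by simpa [w] using this)
  | succ N ih =>
    refine (((Set.finite_le_nat N).image2 List.cons ih).insert []).subset fun l hl => ?_
    rcases l with _ | ⟨i, l⟩
    · exact .inl rfl
    · have hl : (1 / 2 : ℝ) ^ (N + 1) ≤ (1 / 2) ^ (i + 1) * w l := hl
      have a := hl.trans (mul_le_of_le_one_right (by positivity) (w0 l).2)
      rw [pow_le_pow_iff_right_of_lt_one₀ (by norm_num) (by norm_num)] at a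
      refine .inr ⟨i, by simpa using a, l, ?_, rfl⟩
      have := mul_le_of_le_one_left (w0 l).1.le (pow_le_one₀ (n := i) (a := (1 / 2 : ℝ))
        (by norm_num) (by norm_num))
      rw [pow_succ, pow_succ] at hl
      show _ ≤ w l
      linarith

lemma ev (x : E 𝕜) (l : List ℕ) : ‖x l‖ ≤ ‖x‖ := lp.norm_apply_le_norm (by simp) x l

lemma cpt (c : 𝕜) : IsCompact {z | z ∈ X 𝕜 ∧ z [] = c} := by
  refine isCompact_iff_ultrafilter_le_nhds'.2 fun F hF => ?_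
  have b : ∀ l, ∀ᶠ z : E 𝕜 in F, ‖z l‖ ≤ w l * ‖c‖ := fun l =>
    mem_of_superset hF fun z hz => hz.2 ▸ hz.1 l
  choose y y1 y2 using fun l => (isCompact_closedBall (0 : 𝕜) (w l * ‖c‖)).ultrafilter_le_nhds'
    (F.map fun z => z l) (Ultrafilter.mem_map.2 ((b l).mono fun z => mem_closedBall_zero_iff.2))
  simp only [mem_closedBall_zero_iff] at y1
  have y0 : y [] = c := tendsto_nhds_unique (y2 []) (tendsto_const_nhds.congr'
    (mem_of_superset hF fun z hz => hz.2.symm))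
  refine ⟨⟨y, memℓp_infty ⟨‖c‖, Set.forall_mem_range.2 fun l => (y1 l).trans
    (mul_le_of_le_one_left (norm_nonneg _) (w0 l).2)⟩⟩, ⟨fun l => y0 ▸ y1 l, y0⟩,
    Metric.nhds_basis_closedBall.ge_iff.2 fun ε e0 => ?_⟩
  obtain ⟨N, hN⟩ := exists_pow_lt_of_lt_one (x := ε / (2 * ‖c‖ + 1)) (y := 1 / 2) (by positivity)
    (by norm_num)
  rw [lt_div_iff₀ (by positivity)] at hN
  filter_upwards [hF, (eventually_all_finite (wfin N)).2 fun l _ =>
    y2 l (Metric.closedBall_mem_nhds _ e0)] with z hz h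
  refine mem_closedBall_iff_norm.2 (lp.norm_le_of_forall_le e0.le fun l => ?_)
  by_cases k : (1 / 2) ^ N ≤ w l
  · exact mem_closedBall_iff_norm.1 (h l k)
  · have := hz.2 ▸ hz.1 l
    have := mul_le_mul_of_nonneg_right (not_le.1 k).le (norm_nonneg c)
    have : 0 < (1 / 2 : ℝ) ^ N := by positivity
    exact (norm_sub_le (z l) (y l)).trans (by nlinarith [y1 l])

lemma mkop (F : List ℕ → E 𝕜 →L[𝕜] 𝕜) (h : ∀ l x, ‖F l x‖ ≤ ‖x‖) (k : ℕ)
    (h0 : ∀ x, F [] x = (1 / 2) ^ k * x [])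
    (hX : ∀ x ∈ X 𝕜, ∀ i l, ‖F (i :: l) x‖ ≤ w (i :: l) * ((1 / 2) ^ k * ‖x []‖)) :
    ∃ T : Gd 𝕜, ∀ x l, T.1 x l = F l x := by
  refine ⟨⟨LinearMap.mkContinuous ⟨⟨fun x => ⟨fun l => F l x, memℓp_infty ⟨‖x‖,
    Set.forall_mem_range.2 (h · x)⟩⟩, fun x y => lp.ext (funext fun l => map_add _ x y)⟩,
    fun c x => lp.ext (funext fun l => map_smul (F l) c x)⟩ 1 fun x =>
      lp.norm_le_of_forall_le (by simp) fun l => (h l x).trans_eq (one_mul _).symm,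
    LinearMap.mkContinuous_norm_le _ zero_le_one _, k, fun x => ⟨h0 x, fun hx l => ?_⟩⟩,
    fun _ _ => rfl⟩
  show ‖F l x‖ ≤ w l * ‖F [] x‖
  rcases l with _ | ⟨i, l⟩
  · simp [w]
  · simpa [h0] using hX x hx i l

noncomputable abbrev π (l : List ℕ) : E 𝕜 →L[𝕜] 𝕜 := lp.evalCLM 𝕜 (fun _ : List ℕ => 𝕜) ∞ l

lemma half (k : ℕ) (a : 𝕜) : ‖(1 / 2) ^ k * a‖ ≤ ‖a‖ := by
  rw [norm_mul, norm_pow]
  exact mul_le_of_le_one_left (norm_nonneg _) (pow_le_one₀ (norm_nonneg _) (by simp; norm_num))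

lemma spow {F : Type} [NormedAddCommGroup F] [NormedSpace 𝕜 F] (c : 𝕜) (n : ℕ) (x : F) :
    ((c • (1 : F →L[𝕜] F)) ^ n) x = c ^ n • x := by rw [smul_pow, one_pow]; rfl

lemma exU : ∃ U : Gd 𝕜, ∀ n (x : E 𝕜), (U ^ n).1 x = (1 / 2 : 𝕜) ^ n • x := by
  have e : ∀ (x : E 𝕜) l, ((1 / 2 : 𝕜) • (1 : E 𝕜 →L[𝕜] E 𝕜)) x l = (1 / 2) ^ 1 * x l :=
    fun x l => by rw [pow_one]; rfl
  refine ⟨⟨(1 / 2 : 𝕜) • 1, ContinuousLinearMap.opNorm_le_bound _ zero_le_one fun x =>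
    lp.norm_le_of_forall_le (by positivity) fun l => ?_, 1, fun x => ⟨e x _, fun hx l => ?_⟩⟩,
    fun n x => by rw [SubmonoidClass.coe_pow]; exact spow (F := E 𝕜) _ n x⟩
  · rw [e, one_mul]; exact (half _ _).trans (ev x l)
  · rw [e, e, norm_mul, norm_mul, mul_left_comm]
    exact mul_le_mul_of_nonneg_left (hx l) (norm_nonneg _)

lemma exS (i : ℕ) : ∃ S : Gd 𝕜, ∀ x l, S.1 x l =
    if l = [] then (1 / 2) ^ (i + 1) * x [] else x (i :: l) := by
  obtain ⟨S, hS⟩ := mkop (fun l => if l = [] then (1 / 2 : 𝕜) ^ (i + 1) • π (𝕜 := 𝕜) [] else π (𝕜 := 𝕜) (i :: l))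
    (fun l x => by split_ifs; exacts [(half (i + 1) (x [])).trans (ev x _), ev x _]) (i + 1) (fun _ => rfl)
    fun x hx j l => (hx (i :: j :: l)).trans_eq (by rw [w]; ring)
  exact ⟨S, fun x l => by rw [hS]; split_ifs <;> rfl⟩

lemma exT {p : E 𝕜 →L[𝕜] E 𝕜} (p1 : ‖p‖ ≤ 1) {k : ℕ}
    (p2 : ∀ x, p x [] = (1 / 2) ^ k * x [] ∧ (x ∈ X 𝕜 → p x ∈ X 𝕜)) (j : ℕ) :
    ∃ T : Gd 𝕜, ∀ x, T.1 x [] = (1 / 2) ^ k * x [] ∧ ∀ i l, T.1 x (i :: l) =
      (1 / 2) ^ (i + 1) * if i ≤ j then (1 / 2) ^ k * x l else p x l := by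
  obtain ⟨F, f0, f1⟩ : ∃ F : List ℕ → E 𝕜 →L[𝕜] 𝕜, (∀ x, F [] x = (1 / 2) ^ k * x []) ∧
      ∀ x i l, F (i :: l) x = (1 / 2) ^ (i + 1) * if i ≤ j then (1 / 2) ^ k * x l else p x l :=
    ⟨fun l => l.casesOn ((1 / 2 : 𝕜) ^ k • π []) fun i l => (1 / 2 : 𝕜) ^ (i + 1) •
      if i ≤ j then (1 / 2 : 𝕜) ^ k • π l else π l ∘L p, fun _ => rfl, fun x i l => by
        by_cases h : i ≤ j <;> simp only [h, if_true, if_false] <;> rfl⟩
  obtain ⟨T, hT⟩ := mkop F (fun l x => by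
      rcases l with _ | ⟨i, l⟩
      · exact f0 x ▸ (half _ _).trans (ev x _)
      · refine f1 x i l ▸ (half _ _).trans ?_
        split_ifs
        · exact (half _ _).trans (ev x _)
        · exact (ev _ l).trans (by simpa using p.le_of_opNorm_le p1 x)) k f0
    fun x hx i l => by
      have a := hx l
      have b := (p2 x).2 hx l
      rw [(p2 x).1] at b
      simp only [f1, norm_mul, w, mul_assoc]
      split_ifs
      · simpa [mul_left_comm (w _)] using a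
      · simpa using b
  exact ⟨T, fun x => ⟨(hT _ _).trans (f0 x), fun i l => (hT _ _).trans (f1 x i l)⟩⟩

lemma rich : ∃ (U : Gd 𝕜) (S : ℕ → Gd 𝕜), (∀ s, s * U = U * s) ∧ ∀ p, ∃ (k : ℕ) (T : ℕ → Gd 𝕜),
    ∀ i j, S i * T j = if i ≤ j then U ^ (i + k) else p * U ^ (i + 1) := by
  obtain ⟨U, u⟩ := exU (𝕜 := 𝕜)
  choose S hS using exS (𝕜 := 𝕜)
  refine ⟨U, S, fun s => Subtype.ext (ContinuousLinearMap.ext fun x => ?_), fun p => ?_⟩
  · have := u 1
    simp only [pow_one] at this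
    simp only [Submonoid.coe_mul, mul_apply_eq_comp, this, map_smul]
  obtain ⟨p1, k, p2⟩ := p.2
  choose T hT using exT p1 p2
  refine ⟨1 + k, T, fun i j => Subtype.ext (ContinuousLinearMap.ext fun x => lp.ext
    (funext fun l => ?_))⟩
  rw [Submonoid.coe_mul, mul_apply_eq_comp, hS, (hT j x).1, (hT j x).2]
  split_ifs with h1 h2 h2 <;> simp only [Submonoid.coe_mul, mul_apply_eq_comp, u,
    map_smul, lp.coeFn_smul, Pi.smul_apply, smul_eq_mul]
  · rw [h1]; ring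
  · rw [h1, (p2 x).1]
  · ring

lemma noline {x : E 𝕜} (h0 : x [] ≠ 0) : ∃ s : Gd 𝕜, ∀ c : 𝕜, s.1 x ≠ c • x := by
  by_contra! h
  have k : ∀ a : 𝕜, ‖a‖ ≤ 1 / 2 → x [0] = a * x [] := fun a ha => by
    obtain ⟨b, b0, b1, b2⟩ : ∃ b : List ℕ → 𝕜, b [] = 1 ∧ b [0] = a ∧ ∀ l, ‖b l‖ ≤ w l := by
      refine ⟨fun l => if l = [] then 1 else if l = [0] then a else 0, rfl, rfl, fun l => ?_⟩
      beta_reduce
      split_ifs with h1 h2
      · simp [h1, w]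
      · simpa [h2, w] using ha
      · simpa using (w0 _).1.le
    obtain ⟨s, hs⟩ := mkop (fun l => b l • π (𝕜 := 𝕜) []) (fun l x => (norm_mul_le (b l) (x [])).trans
      ((mul_le_of_le_one_left (norm_nonneg _) ((b2 l).trans (w0 l).2)).trans (ev x _))) 0
      (fun x => show b [] * x [] = _ by simp [b0]) fun x _ i l => (norm_mul_le (b _) (x [])).trans
        (mul_le_mul (b2 _) (by simp) (norm_nonneg _) (w0 _).1.le)
    obtain ⟨c, hc⟩ := h s
    have a1 : s.1 x [] = b [] * x [] := hs x []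
    have a2 : s.1 x [0] = b [0] * x [] := hs x [0]
    rw [hc, lp.coeFn_smul, Pi.smul_apply, smul_eq_mul] at a1 a2
    rwa [mul_right_cancel₀ h0 a1, b0, b1, one_mul] at a2
  exact h0 (by simpa using (k 0 (by simp)).symm.trans (k (1 / 2) (by simp)))

end

end Pool.Agent.H.MP_12dd5c_an
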