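import Pool.Agent.H.MP_12dd5c_an.A

namespace Pool.Agent.H.MP_12dd5c_an

open Filter Topology
open scoped ENNReal Classical ComplexOrder

variable {G : Type}

lemma pos {Φ : Li G ≃ₗᵢ[ℂ] StrongDual ℂ (L1 G)} (hΦ : ∀ x s, Φ x (δ s) = x s) {a : L1 G}
    (ha : ∀ x, 0 ≤ Φ (star x * x) a) (h1 : Φ 1 a = 1) : ∃ r : G → ℝ, (∀ s, 0 ≤ r s) ∧
      HasSum (fun s => r s • δ s) a ∧ HasSum r 1 := by
  have : ∀ s, 0 ≤ a s := fun s => (ha (lp.single ∞ s 1)).trans_eq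
    (ext (L' := lp.evalCLM ℂ (fun _ => ℂ) 1 s) (fun t => by
      rw [hΦ]
      show star (lp.single (E := fun _ => ℂ) ∞ s 1 t) * lp.single (E := fun _ => ℂ) ∞ s 1 t = δ t s
      by_cases h : t = s
      · simp [δ, h]
      · simp [δ, h, Ne.symm h]) a)
  have h : HasSum (fun s => ‖a s‖ • δ s) a := by
    refine (hs a).congr_fun fun s => ?_
    refine lp.ext (funext fun t => ?_)
    show (‖a s‖ : ℂ) * δ s t = a s * δ s t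
    rw [Complex.norm_of_nonneg' (this s)]
  refine ⟨fun s => ‖a s‖, fun _ => norm_nonneg _, h, ?_⟩
  have e : ∀ s, Φ 1 (δ s) = 1 := fun s => hΦ 1 s
  have := Complex.hasSum_re ((Φ 1).hasSum h)
  simpa [e, h1] using this

variable {𝕜 F ι : Type} [RCLike 𝕜] [NormedAddCommGroup F] [NormedSpace 𝕜 F] [NormedSpace ℝ F]
  [IsScalarTower ℝ 𝕜 F]

lemma hom [Monoid G]
    {mul : L1 G →L[ℂ] L1 G →L[ℂ] L1 G} (h2 : ∀ s t, mul (δ s) (δ t) = δ (s * t))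
    {W : L1 G →L[ℝ] F →L[𝕜] F} (w2 : ∀ s t, W (δ (s * t)) = W (δ s) * W (δ t)) {a b : L1 G} {r q : G → ℝ}
    (hr : HasSum (fun s => r s • δ s) a) (hq : HasSum (fun s => q s • δ s) b) :
    W (mul a b) = W a * W b := by
  have k : ∀ s, W (mul (δ s) b) = W (δ s) * W b := fun s =>
    (W.hasSum ((mul (δ s)).hasSum hq)).unique (by
      simpa [h2, w2] using (W.hasSum hq).mul_left (W (δ s)))
  exact (W.hasSum ((mul.flip b).hasSum hr)).unique (by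
    simpa [k] using (W.hasSum hr).mul_right (W b))

lemma cone {v : G → F →L[𝕜] F} {r : G → ℝ} (r0 : ∀ s, 0 ≤ r s) (s1 : HasSum r 1)
    {T : F →L[𝕜] F} (hT : HasSum (fun s => r s • v s) T) (π : ι → F →L[𝕜] 𝕜) (w : ι → ℝ) (o : ι)
    {X : Set F} (hX : ∀ x, x ∈ X ↔ ∀ l, ‖π l x‖ ≤ w l * ‖π o x‖) (h : ∀ s, ‖v s‖ ≤ 1 ∧
      ∃ k : ℕ, ∀ x, π o (v s x) = (1 / 2) ^ k * π o x ∧ (x ∈ X → v s x ∈ X)) :
    ‖T‖ ≤ 1 ∧ ∃ c : 𝕜, c ≠ 0 ∧ ∀ x, π o (T x) = c * π o x ∧ (x ∈ X → T x ∈ X) := by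
  choose k hk using fun s => (h s).2
  have s2 : Summable fun s => r s * (1 / 2) ^ k s := .of_nonneg_of_le (fun s => by
    have := r0 s; positivity) (fun s => mul_le_of_le_one_right (r0 s)
      (pow_le_one₀ (by norm_num) (by norm_num))) s1.summable
  have c0 : 0 < ∑' s, r s * (1 / 2) ^ k s := by
    obtain ⟨s, h⟩ : ∃ s, r s ≠ 0 := by
      by_contra! h
      obtain rfl : r = fun _ => 0 := funext h
      exact one_ne_zero (s1.unique hasSum_zero)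
    have := (r0 s).lt_of_ne' h
    exact s2.tsum_pos (fun s => by have := r0 s; positivity) s (by positivity)
  have u : ∀ x l, HasSum (fun s => (r s : 𝕜) * π l (v s x)) (π l (T x)) := fun x l => by
    refine ((π l).hasSum ((ContinuousLinearMap.apply 𝕜 _ x).hasSum hT)).congr_fun fun s => ?_
    show _ = π l (r s • v s x)
    rw [RCLike.real_smul_eq_coe_smul (K := 𝕜), map_smul, smul_eq_mul]
  have v0 : ∀ x, π o (T x) = (∑' s, r s * (1 / 2) ^ k s : ℝ) * π o x := fun x => (u x o).unique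
    ((((RCLike.hasSum_ofReal 𝕜).2 s2.hasSum).mul_right (π o x)).congr_fun fun s => by
      rw [(hk _ x).1, ← mul_assoc]; congr 1; show _ = ((_ : ℝ) : 𝕜); push_cast; rfl)
  refine ⟨hT.norm_le_of_bounded s1 fun s => ?_, _, RCLike.ofReal_ne_zero.2 c0.ne',
    fun x => ⟨v0 x, fun hx => (hX _).2 fun l => ?_⟩⟩
  · rw [norm_smul, Real.norm_of_nonneg (r0 s)]
    exact mul_le_of_le_one_right (r0 s) (h s).1
  rw [v0, norm_mul, RCLike.norm_ofReal, abs_of_pos c0]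
  refine (u x l).norm_le_of_bounded ((s2.hasSum.mul_right _).mul_left _) fun s => ?_
  have := (hX _).1 ((hk s x).2 hx) l
  rw [(hk s x).1] at this
  rw [norm_mul, RCLike.norm_ofReal, abs_of_nonneg (r0 s), mul_assoc, mul_left_comm]
  exact mul_le_mul_of_nonneg_left (by simpa using this) (r0 s)

lemma gen [CompleteSpace F] [Monoid G] (v : G →* F →L[𝕜] F) (π : ι → F →L[𝕜] 𝕜) (w : ι → ℝ) (o : ι)
    {X : Set F} (hX : ∀ x, x ∈ X ↔ ∀ l, ‖π l x‖ ≤ w l * ‖π o x‖) (h : ∀ s, ‖v s‖ ≤ 1 ∧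
      ∃ k : ℕ, ∀ x, π o (v s x) = (1 / 2) ^ k * π o x ∧ (x ∈ X → v s x ∈ X))
    {U : G} (hU : ∀ s, s * U = U * s) (S : ℕ → G) (H : ∀ p, ∃ (k : ℕ) (T : ℕ → G),
      ∀ i j, S i * T j = if i ≤ j then U ^ (i + k) else p * U ^ (i + 1)) :
    ∃ (mul : L1 G →L[ℂ] L1 G →L[ℂ] L1 G) (Φ : Li G ≃ₗᵢ[ℂ] StrongDual ℂ (L1 G))
    (W : L1 G → F →L[𝕜] F), Continuous W ∧
    (∀ a b c, mul (mul a b) c = mul a (mul b c)) ∧ (∀ a b, ‖mul a b‖ ≤ ‖a‖ * ‖b‖) ∧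
    (∀ a b, Φ 1 (mul a b) = Φ 1 a * Φ 1 b) ∧
    (∃ m : StrongDual ℂ (StrongDual ℂ (L1 G)), ‖m‖ = 1 ∧ m (Φ 1) = 1 ∧
      ∀ f : StrongDual ℂ (L1 G), (IsCompactOperator fun a => toWeakSpace ℂ _ (f ∘L mul a)) →
        ∀ a, Φ 1 a = 1 → m (f ∘L mul a) = m f) ∧
    ∀ P : Set (L1 G), P = {a | (∀ x, 0 ≤ Φ (star x * x) a) ∧ Φ 1 a = 1} →
      (∀ a ∈ P, ∀ b ∈ P, W (mul a b) = W a * W b) ∧
      (∀ a ∈ P, ‖W a‖ ≤ 1 ∧ ∃ c : 𝕜, c ≠ 0 ∧ ∀ x, π o (W a x) = c * π o x ∧ (x ∈ X → W a x ∈ X)) ∧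
      ∀ s, ∃ a ∈ P, W a = v s := by
  obtain ⟨mul, h1, h2, h3⟩ := conv G
  obtain ⟨Φ, hΦ⟩ := dual G
  obtain ⟨W, -, w2⟩ := lift Complex.reCLM Complex.reCLM_norm.le rfl v zero_le_one fun s => (h s).1
  have e : ∀ s, Φ 1 (δ s) = 1 := fun s => hΦ 1 s
  refine ⟨mul, Φ, W, W.continuous, h3, fun a b => by
      simpa using mul.le_of_opNorm₂_le_of_le h1 le_rfl le_rfl,
    fun a b => ext (L := Φ 1 ∘L mul.flip b) (L' := (Φ 1).smulRight (Φ 1 b)) (fun s =>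
      (ext (L := Φ 1 ∘L mul (δ s)) (L' := Φ 1) (fun t => by simp [h2, e]) b).trans
        (by simp [e])) a, tlim h1 h2 (by have : Nonempty G := ⟨1⟩; simp) e hU S H, ?_⟩
  rintro P rfl
  refine ⟨fun a ha b hb => ?_, fun a ha => ?_, fun s => ⟨δ s, ⟨fun x => by
    rw [hΦ]; exact star_mul_self_nonneg (x s), e s⟩, w2 s⟩⟩
  · obtain ⟨r, -, hr, -⟩ := pos hΦ ha.1 ha.2
    obtain ⟨q, -, hq, -⟩ := pos hΦ hb.1 hb.2
    exact hom h2 (fun s t => by rw [w2, w2, w2, map_mul]) hr hq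
  · obtain ⟨r, r0, hr, s1⟩ := pos hΦ ha.1 ha.2
    exact cone r0 s1 (by simpa only [map_smul, w2] using W.hasSum hr) π w o hX h

lemma main (𝕜 : Type) [RCLike 𝕜] : ∃ (F : Type) (_ : NormedAddCommGroup F) (_ : NormedSpace 𝕜 F)
    (_ : NormedSpace ℝ F) (_ : IsScalarTower ℝ 𝕜 F) (p : F →L[𝕜] 𝕜) (X : Set F) (G : Type)
    (mul : L1 G →L[ℂ] L1 G →L[ℂ] L1 G) (Φ : Li G ≃ₗᵢ[ℂ] StrongDual ℂ (L1 G))
    (W : L1 G → F →L[𝕜] F), (∃ x ∈ X, p x = 1) ∧ (∀ x ∈ X, ∀ c : 𝕜, c • x ∈ X) ∧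
    (∀ x ∈ X, p x = 0 → x = 0) ∧ (∀ c, IsCompact {z | z ∈ X ∧ p z = c}) ∧ Continuous W ∧
    (∀ a b c, mul (mul a b) c = mul a (mul b c)) ∧ (∀ a b, ‖mul a b‖ ≤ ‖a‖ * ‖b‖) ∧
    (∀ a b, Φ 1 (mul a b) = Φ 1 a * Φ 1 b) ∧
    (∃ m : StrongDual ℂ (StrongDual ℂ (L1 G)), ‖m‖ = 1 ∧ m (Φ 1) = 1 ∧
      ∀ f : StrongDual ℂ (L1 G), (IsCompactOperator fun a => toWeakSpace ℂ _ (f ∘L mul a)) →
        ∀ a, Φ 1 a = 1 → m (f ∘L mul a) = m f) ∧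
    ∀ P : Set (L1 G), P = {a | (∀ x, 0 ≤ Φ (star x * x) a) ∧ Φ 1 a = 1} →
      (∀ a ∈ P, ∀ b ∈ P, W (mul a b) = W a * W b) ∧
      (∀ a ∈ P, ‖W a‖ ≤ 1 ∧ ∃ c : 𝕜, c ≠ 0 ∧ ∀ x, p (W a x) = c * p x ∧ (x ∈ X → W a x ∈ X)) ∧
      ∀ x, p x ≠ 0 → ∃ a ∈ P, ∀ c : 𝕜, W a x ≠ c • x := by
  obtain ⟨U, S, u1, u2⟩ := rich (𝕜 := 𝕜)
  obtain ⟨mul, Φ, W, h0, h1, h2, h3, h4, h5⟩ := gen (F := E 𝕜) (Gd 𝕜).subtype π w [] (X := X 𝕜)
    (fun _ => Iff.rfl) (fun s => s.2) u1 S u2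
  refine ⟨E 𝕜, _, _, _, inferInstance, π [], X 𝕜, Gd 𝕜, mul, Φ, W,
    ⟨lp.single ∞ [] 1, fun l => ?_, lp.single_apply_self (E := fun _ : List ℕ => 𝕜) ∞ [] 1⟩, fun x hx c l => ?_,
    fun x hx h => lp.ext (funext fun l => ?_), cpt, h0, h1, h2, h3, h4, fun P hP =>
      ⟨(h5 P hP).1, (h5 P hP).2.1, fun x hx => ?_⟩⟩
  · by_cases h : l = []
    · simp [h, w]
    · simpa [h] using (w0 l).1.le
  · show ‖c * x l‖ ≤ w l * ‖c * x []‖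
    rw [norm_mul, norm_mul, mul_left_comm]
    exact mul_le_mul_of_nonneg_left (hx l) (norm_nonneg _)
  · have := hx l
    rwa [show x [] = 0 from h, norm_zero, mul_zero, norm_le_zero_iff] at this
  · obtain ⟨s, hs⟩ := noline (x := x) hx
    obtain ⟨a, a1, a2⟩ := (h5 P hP).2.2 s
    exact ⟨a, a1, by rw [a2]; exact hs⟩

end Pool.Agent.H.MP_12dd5c_an
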